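import Pool.Agent.H28.MCL.Targets
import Mathlib.Data.Int.CardIntervalMod

/-!
# [CNT] Counting in classes
-/

set_option autoImplicit false

open Pool.Agent.H28.MCL Finset Filter

namespace Pool.Agent.H35.MCL

theorem card_cls (a b W v : ℕ) (hW : 0 < W) (hab : a ≤ b) :
    ((((Finset.Ioc a b).filter (fun n => n ≡ v [MOD W])).card : ℝ) ≤
      ((b : ℝ) - a) / W + 1) ∧
    (((b : ℝ) - a) / W - 1 ≤ (((Finset.Ioc a b).filter (fun n => n ≡ v [MOD W])).card : ℝ)) := by
  have h := Nat.Ioc_filter_modEq_card a b hW v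
  set m := ((Finset.Ioc a b).filter (fun n => n ≡ v [MOD W])).card with hm
  have hWq : (0 : ℚ) < W := by exact_mod_cast hW
  have h1 := Int.floor_le (((b : ℚ) - v) / (W : ℚ))
  have h2 := Int.lt_floor_add_one (((b : ℚ) - v) / (W : ℚ))
  have h3 := Int.floor_le (((a : ℚ) - v) / (W : ℚ))
  have h4 := Int.lt_floor_add_one (((a : ℚ) - v) / (W : ℚ))
  have h5 : ((b : ℚ) - a) / W = ((b : ℚ) - v) / W - ((a : ℚ) - v) / W := by
    rw [← sub_div]
    ring
  have h6 : (0 : ℚ) ≤ ((b : ℚ) - a) / W := by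
    have : (a : ℚ) ≤ b := by exact_mod_cast hab
    exact div_nonneg (by linarith) hWq.le
  have h7 : (m : ℚ) = ((max (⌊((b : ℚ) - v) / (W : ℚ)⌋ - ⌊((a : ℚ) - v) / (W : ℚ)⌋) 0 : ℤ) : ℚ) := by
    rw [← h]
    push_cast
    rfl
  have h8 : (m : ℚ) ≤ ((b : ℚ) - a) / W + 1 := by
    rw [h7]
    push_cast
    refine max_le ?_ (by linarith)
    linarith
  have h9 : ((b : ℚ) - a) / W - 1 ≤ (m : ℚ) := by
    rw [h7]
    push_cast
    refine le_trans ?_ (le_max_left _ _)
    linarith
  constructor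
  · have := (Rat.cast_le (K := ℝ)).2 h8
    push_cast at this
    exact this
  · have := (Rat.cast_le (K := ℝ)).2 h9
    push_cast at this
    exact this

theorem fib (W n T a : ℕ) (ha : a < W) :
    ((Finset.Icc 1 T).filter (fun t => (n + t) % W = a)).card =
      ((Finset.Ioc n (n + T)).filter (fun x => x ≡ a [MOD W])).card := by
  refine Finset.card_bij (fun t _ => n + t) ?_ ?_ ?_
  · intro t ht
    rw [Finset.mem_filter, Finset.mem_Icc] at ht
    rw [Finset.mem_filter, Finset.mem_Ioc]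
    refine ⟨by omega, ?_⟩
    unfold Nat.ModEq
    rw [ht.2, Nat.mod_eq_of_lt ha]
  · intro t _ t' _ h
    exact Nat.add_left_cancel h
  · intro x hx
    rw [Finset.mem_filter, Finset.mem_Ioc] at hx
    refine ⟨x - n, ?_, by omega⟩
    rw [Finset.mem_filter, Finset.mem_Icc]
    refine ⟨by omega, ?_⟩
    have h := hx.2
    unfold Nat.ModEq at h
    rw [Nat.mod_eq_of_lt ha] at h
    rw [show n + (x - n) = x by omega]
    exact h

theorem cnt : T_CNT := by
  intro W n T A hW hA
  have hsum : ((((Finset.Icc 1 T).filter (fun t => (n + t) % W ∈ A)).card : ℕ) : ℝ) =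
      ∑ a ∈ A, (((Finset.Ioc n (n + T)).filter (fun x => x ≡ a [MOD W])).card : ℝ) := by
    have h1 := Finset.card_eq_sum_card_fiberwise
      (s := (Finset.Icc 1 T).filter (fun t => (n + t) % W ∈ A)) (t := A)
      (f := fun t => (n + t) % W) (fun t ht => (Finset.mem_filter.1 ht).2)
    rw [h1]
    push_cast
    refine Finset.sum_congr rfl fun a ha => ?_
    rw [← fib W n T a (Finset.mem_range.1 (hA ha)), Finset.filter_filter]
    congr 2
    ext t
    simp only [Finset.mem_filter]
    constructor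
    · rintro ⟨h, -, h2⟩
      exact ⟨h, h2⟩
    · rintro ⟨h, h2⟩
      exact ⟨h, by rw [h2]; exact ha, h2⟩
  refine ⟨?_, ?_, ?_⟩
  · rw [hsum, ← nsmul_eq_mul]
    refine Finset.sum_le_card_nsmul _ _ _ fun a _ => ?_
    have h := (card_cls n (n + T) W a hW (Nat.le_add_right _ _)).1
    refine h.trans (le_of_eq ?_)
    push_cast
    ring
  · rw [hsum, ← nsmul_eq_mul]
    refine Finset.card_nsmul_le_sum _ _ _ fun a _ => ?_
    have h := (card_cls n (n + T) W a hW (Nat.le_add_right _ _)).2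
    refine le_trans (le_of_eq ?_) h
    push_cast
    ring
  · intro N c hT
    have h := card_cls (N - T) N W c hW (Nat.sub_le _ _)
    rw [Nat.cast_sub hT] at h
    have e : ((N : ℝ) - (N - T)) / W = (T : ℝ) / W := by ring
    rw [e] at h
    exact h

end Pool.Agent.H35.MCL
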